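import Pool.Agent.ALG.A1
import Pool.Agent.ALG.A2

/-!
# [ALN] automorphic growth and torsion-free nilpotent quotients (MP_893f58_al) (helper52)
-/

set_option autoImplicit false

namespace ALN

open AG ALG

open scoped commutatorElement

section

variable {G : Type*} [Group G]

/-- the terms of the lower central series of `G`; `γ 0 = G` -/
abbrev gm (G : Type*) [Group G] (n : ℕ) : Subgroup G := (⊤ : Subgroup G).lowerCentralSeries n

/-- the left normed commutator of `g 0, ..., g n` -/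
def lc (g : ℕ → G) : ℕ → G
  | 0 => g 0
  | n + 1 => ⁅lc g n, g (n + 1)⁆

theorem comm_mem {n : ℕ} {x : G} (hx : x ∈ gm G n) (b : G) : ⁅x, b⁆ ∈ gm G (n + 1) :=
  Subgroup.commutator_mem_commutator hx (Subgroup.mem_top b)

theorem lc_mem (g : ℕ → G) : ∀ n, lc g n ∈ gm G n
  | 0 => Subgroup.mem_top _
  | n + 1 => comm_mem (lc_mem g n) _

theorem lc_congr {g h : ℕ → G} : ∀ n, (∀ i ≤ n, g i = h i) → lc g n = lc h n
  | 0, H => H 0 le_rfl
  | n + 1, H => by
    rw [lc, lc, lc_congr n (fun i hi => H i (by omega)), H (n + 1) le_rfl]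

theorem gm_anti {m n : ℕ} (h : m ≤ n) : gm G n ≤ gm G m :=
  (⊤ : Subgroup G).lowerCentralSeries_antitone h

/-- `f` is trivial on the next term of the lower central series -/
def Kill {C : Type*} [CommGroup C] {n : ℕ} (f : gm G n →* C) : Prop :=
  ∀ x : gm G n, (x : G) ∈ gm G (n + 1) → f x = 1

theorem Kill.conj {C : Type*} [CommGroup C] {n : ℕ} {f : gm G n →* C} (hf : Kill f) (a : G)
    (u : gm G n) (h : a * u * a⁻¹ ∈ gm G n) : f ⟨a * u * a⁻¹, h⟩ = f u := by
  have h1 : f (⟨a * u * a⁻¹, h⟩ * u⁻¹) = 1 := by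
    apply hf
    have h2 : ⁅(u : G), a⁆⁻¹ ∈ gm G (n + 1) := inv_mem (comm_mem u.2 a)
    have h3 : a * (u : G) * a⁻¹ * (u : G)⁻¹ = ⁅(u : G), a⁆⁻¹ := by
      rw [commutatorElement_inv, commutatorElement_def]
    show a * (u : G) * a⁻¹ * (u : G)⁻¹ ∈ gm G (n + 1)
    rw [h3]
    exact h2
  rw [map_mul, map_inv, mul_inv_eq_one] at h1
  exact h1

/-- `x ↦ f ⁅x, b⁆` -/
def homL {C : Type*} [CommGroup C] {n : ℕ} (f : gm G (n + 1) →* C) (hf : Kill f) (b : G) :
    gm G n →* C where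
  toFun x := f ⟨⁅(x : G), b⁆, comm_mem x.2 b⟩
  map_one' := by
    have : (⟨⁅((1 : gm G n) : G), b⁆, comm_mem (1 : gm G n).2 b⟩ : gm G (n + 1)) = 1 := by
      apply Subtype.ext
      simp
    rw [this, map_one]
  map_mul' x y := by
    have h1 : ⁅((x * y : gm G n) : G), b⁆ = (x : G) * ⁅(y : G), b⁆ * (x : G)⁻¹ * ⁅(x : G), b⁆ := by
      simp only [commutatorElement_def, Subgroup.coe_mul]
      group
    have h2 : (x : G) * ⁅(y : G), b⁆ * (x : G)⁻¹ ∈ gm G (n + 1) :=
      (Subgroup.lowerCentralSeries_normal (⊤ : Subgroup G) (n + 1)).conj_mem _ (comm_mem y.2 b) _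
    have h3 : (⟨⁅((x * y : gm G n) : G), b⁆, comm_mem (x * y).2 b⟩ : gm G (n + 1)) =
        ⟨(x : G) * ⁅(y : G), b⁆ * (x : G)⁻¹, h2⟩ * ⟨⁅(x : G), b⁆, comm_mem x.2 b⟩ :=
      Subtype.ext h1
    rw [h3, map_mul, hf.conj (x : G) ⟨⁅(y : G), b⁆, comm_mem y.2 b⟩ h2, mul_comm]

theorem homL_kill {C : Type*} [CommGroup C] {n : ℕ} (f : gm G (n + 1) →* C) (hf : Kill f) (b : G) :
    Kill (homL f hf b) := by
  intro x hx
  exact hf _ (comm_mem hx b)

/-- `b ↦ f ⁅x, b⁆` -/
def homR {C : Type*} [CommGroup C] {n : ℕ} (f : gm G (n + 1) →* C) (hf : Kill f) (x : gm G n) :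
    G →* C where
  toFun b := f ⟨⁅(x : G), b⁆, comm_mem x.2 b⟩
  map_one' := by
    have : (⟨⁅(x : G), 1⁆, comm_mem x.2 1⟩ : gm G (n + 1)) = 1 := by
      apply Subtype.ext
      simp
    rw [this, map_one]
  map_mul' a b := by
    have h1 : ⁅(x : G), a * b⁆ = ⁅(x : G), a⁆ * (a * ⁅(x : G), b⁆ * a⁻¹) := by
      simp only [commutatorElement_def]
      group
    have h2 : a * ⁅(x : G), b⁆ * a⁻¹ ∈ gm G (n + 1) :=
      (Subgroup.lowerCentralSeries_normal (⊤ : Subgroup G) (n + 1)).conj_mem _ (comm_mem x.2 b) _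
    have h3 : (⟨⁅(x : G), a * b⁆, comm_mem x.2 (a * b)⟩ : gm G (n + 1)) =
        ⟨⁅(x : G), a⁆, comm_mem x.2 a⟩ * ⟨a * ⁅(x : G), b⁆ * a⁻¹, h2⟩ :=
      Subtype.ext h1
    rw [h3, map_mul, hf.conj a ⟨⁅(x : G), b⁆, comm_mem x.2 b⟩ h2]

/-- A homomorphism to an abelian group which kills the next term and all left normed commutators of generators is trivial. -/
theorem eq_one_of_gen {C : Type*} [CommGroup C] (T : Set G) (hT : Subgroup.closure T = ⊤) :
    ∀ (n : ℕ) (f : gm G n →* C), Kill f →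
      (∀ s : ℕ → G, (∀ i, s i ∈ T) → f ⟨lc s n, lc_mem s n⟩ = 1) → f = 1 := by
  intro n
  induction n with
  | zero =>
    intro f hf h
    ext x
    have h1 : ∀ y ∈ Subgroup.closure T, ∀ hy : y ∈ gm G 0, f ⟨y, hy⟩ = 1 := by
      intro y hy
      induction hy using Subgroup.closure_induction with
      | mem y hy => exact fun _ => h (fun _ => y) (fun _ => hy)
      | one => exact fun _ => map_one f
      | mul a b _ _ ha hb =>
        intro hab
        have : (⟨a * b, hab⟩ : gm G 0) = ⟨a, Subgroup.mem_top _⟩ * ⟨b, Subgroup.mem_top _⟩ := rfl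
        rw [this, map_mul, ha, hb, one_mul]
      | inv a _ ha =>
        intro hab
        have : (⟨a⁻¹, hab⟩ : gm G 0) = (⟨a, Subgroup.mem_top _⟩)⁻¹ := rfl
        rw [this, map_inv, ha, inv_one]
    exact h1 x (by rw [hT]; exact Subgroup.mem_top _) x.2
  | succ n ih =>
    intro f hf h
    have h1 : ∀ t ∈ T, homL f hf t = 1 := by
      intro t ht
      apply ih _ (homL_kill f hf t)
      intro s hs
      have h2 := h (Function.update s (n + 1) t) (by
        intro i
        by_cases hi : i = n + 1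
        · rw [hi, Function.update_self]
          exact ht
        · rw [Function.update_of_ne hi]
          exact hs i)
      have h3 : lc (Function.update s (n + 1) t) (n + 1) = ⁅lc s n, t⁆ := by
        have h31 : lc (Function.update s (n + 1) t) n = lc s n :=
          lc_congr n (fun i hi => Function.update_of_ne (by omega) _ _)
        rw [lc, Function.update_self, h31]
      have h4 : (⟨lc (Function.update s (n + 1) t) (n + 1), lc_mem _ _⟩ : gm G (n + 1)) =
          ⟨⁅lc s n, t⁆, comm_mem (lc_mem s n) t⟩ := Subtype.ext h3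
      rw [h4] at h2
      exact h2
    have h5 : ∀ (x : gm G n) (b : G), f ⟨⁅(x : G), b⁆, comm_mem x.2 b⟩ = 1 := by
      intro x b
      have h6 : ∀ t ∈ Subgroup.closure T, homR f hf x t = 1 := by
        intro t ht
        have h7 : Subgroup.closure T ≤ (homR f hf x).ker := by
          rw [Subgroup.closure_le]
          intro t ht
          exact DFunLike.congr_fun (h1 t ht) x
        exact h7 ht
      exact h6 b (by rw [hT]; exact Subgroup.mem_top _)
    ext y
    have h8 : ∀ y ∈ gm G (n + 1), ∀ hy : y ∈ gm G (n + 1), f ⟨y, hy⟩ = 1 := by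
      intro y hy0
      change y ∈ Subgroup.closure {g | ∃ g₁ ∈ gm G n, ∃ g₂ ∈ (⊤ : Subgroup G), ⁅g₁, g₂⁆ = g} at hy0
      induction hy0 using Subgroup.closure_induction with
      | mem y hy =>
        obtain ⟨a, ha, b, -, rfl⟩ := hy
        exact fun _ => h5 ⟨a, ha⟩ b
      | one => exact fun _ => map_one f
      | mul a b ha' hb' ha hb =>
        intro hab
        have h9 : a ∈ gm G (n + 1) := ha'
        have h10 : b ∈ gm G (n + 1) := hb'
        have : (⟨a * b, hab⟩ : gm G (n + 1)) = ⟨a, h9⟩ * ⟨b, h10⟩ := rfl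
        rw [this, map_mul, ha, hb, one_mul]
      | inv a ha' ha =>
        intro hab
        have h9 : a ∈ gm G (n + 1) := ha'
        have : (⟨a⁻¹, hab⟩ : gm G (n + 1)) = (⟨a, h9⟩)⁻¹ := rfl
        rw [this, map_inv, ha, inv_one]
    exact h8 y y.2 y.2

/-- multilinearity -/
theorem lc_pow {C : Type*} [CommGroup C] (g : ℕ → G) (a : ℕ → ℕ) :
    ∀ (n : ℕ) (f : gm G n →* C), Kill f →
      f ⟨lc (fun i => g i ^ a i) n, lc_mem _ n⟩ =
        f ⟨lc g n, lc_mem g n⟩ ^ (∏ i ∈ Finset.range (n + 1), a i) := by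
  intro n
  induction n with
  | zero =>
    intro f hf
    rw [Finset.prod_range_one, ← map_pow]
    rfl
  | succ n ih =>
    intro f hf
    have h1 : f ⟨lc (fun i => g i ^ a i) (n + 1), lc_mem _ (n + 1)⟩ =
        homR f hf ⟨lc (fun i => g i ^ a i) n, lc_mem _ n⟩ (g (n + 1) ^ a (n + 1)) := rfl
    have h2 : homR f hf ⟨lc (fun i => g i ^ a i) n, lc_mem _ n⟩ (g (n + 1)) =
        homL f hf (g (n + 1)) ⟨lc (fun i => g i ^ a i) n, lc_mem _ n⟩ := rfl
    have h3 : homL f hf (g (n + 1)) ⟨lc g n, lc_mem g n⟩ =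
        f ⟨lc g (n + 1), lc_mem g (n + 1)⟩ := rfl
    rw [h1, map_pow, h2, ih _ (homL_kill f hf _), h3, ← pow_mul, Finset.prod_range_succ _ (n + 1)]

end

end ALN
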