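import Pool.Agent.ALN.Basic

/-!
# [ALN] automorphic growth and torsion-free nilpotent quotients (MP_893f58_al) (helper52)
-/

set_option autoImplicit false

namespace ALN

open AG ALG

open scoped commutatorElement

section

variable {G : Type*} [Group G]

theorem gm_aut (n : ℕ) (φ : MulAut G) (x : G) : φ x ∈ gm G n ↔ x ∈ gm G n := by
  have h : (gm G n).map φ.toMonoidHom = gm G n := Subgroup.characteristic_iff_map_eq.1
    (Subgroup.lowerCentralSeries_characteristic (⊤ : Subgroup G) n) φ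
  constructor
  · intro hx
    rw [← h] at hx
    obtain ⟨y, hy, hxy⟩ := hx
    have : y = x := φ.injective hxy
    rw [← this]
    exact hy
  · intro hx
    rw [← h]
    exact ⟨x, hx, rfl⟩

/-- the composition of `f` with an automorphism -/
noncomputable def precomp {C : Type*} [CommGroup C] {n : ℕ} (f : gm G n →* C) (φ : MulAut G) :
    gm G n →* C :=
  f.comp (A1_res (gm G n) φ (gm_aut n φ)).toMonoidHom

theorem precomp_apply {C : Type*} [CommGroup C] {n : ℕ} (f : gm G n →* C) (φ : MulAut G)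
    (x : gm G n) : precomp f φ x = f ⟨φ x, (gm_aut n φ x).2 x.2⟩ := rfl

theorem precomp_kill {C : Type*} [CommGroup C] {n : ℕ} {f : gm G n →* C} (hf : Kill f)
    (φ : MulAut G) : Kill (precomp f φ) := by
  intro x hx
  rw [precomp_apply]
  exact hf _ ((gm_aut (n + 1) φ x).2 hx)

/-- one half of the comparison of the contents -/
theorem content_le {n : ℕ} (g x y : gm G n) (k l : ℕ)
    (h0 : ∃ f : gm G n →* Multiplicative ℤ, Kill f ∧ f g ≠ 1)
    (hx : ∀ f : gm G n →* Multiplicative ℤ, Kill f → f x = f g ^ k)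
    (hy : ∀ f : gm G n →* Multiplicative ℤ, Kill f → f y = f g ^ l)
    (φ : MulAut G) (h : φ x = y) : (k = 0 → l = 0) ∧ (l ≠ 0 → k ≤ l) := by
  classical
  have hP : ∃ m : ℕ, ∃ f : gm G n →* Multiplicative ℤ, Kill f ∧ f g ≠ 1 ∧
      (Multiplicative.toAdd (f g)).natAbs = m := by
    obtain ⟨f, hf, hfg⟩ := h0
    exact ⟨_, f, hf, hfg, rfl⟩
  obtain ⟨f, hf, hfg, hm⟩ := Nat.find_spec hP
  have hmin : ∀ f' : gm G n →* Multiplicative ℤ, Kill f' → f' g ≠ 1 →
      (Multiplicative.toAdd (f g)).natAbs ≤ (Multiplicative.toAdd (f' g)).natAbs := by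
    intro f' h1 h2
    rw [hm]
    exact Nat.find_min' hP ⟨f', h1, h2, rfl⟩
  have hpos : 0 < (Multiplicative.toAdd (f g)).natAbs := by
    rw [Int.natAbs_pos]
    intro h1
    exact hfg (Multiplicative.toAdd.injective h1)
  have h1 : precomp f φ x = f y := by
    rw [precomp_apply]
    have h2 : (⟨φ x, (gm_aut n φ x).2 x.2⟩ : gm G n) = y := Subtype.ext h
    rw [h2]
  rw [hx _ (precomp_kill hf φ), hy _ hf] at h1
  have h2 : k * (Multiplicative.toAdd (precomp f φ g)).natAbs =
      l * (Multiplicative.toAdd (f g)).natAbs := by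
    have h3 := congrArg (fun z => (Multiplicative.toAdd z).natAbs) h1
    simp only [toAdd_pow, nsmul_eq_mul, Int.natAbs_mul, Int.natAbs_natCast] at h3
    exact h3
  constructor
  · intro hk
    rw [hk, zero_mul] at h2
    rcases Nat.mul_eq_zero.1 h2.symm with h3 | h3
    · exact h3
    · omega
  · intro hl
    have h3 : precomp f φ g ≠ 1 := by
      intro h4
      rw [h4] at h2
      have h5 : (Multiplicative.toAdd (1 : Multiplicative ℤ)).natAbs = 0 := rfl
      rw [h5, mul_zero] at h2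
      rcases Nat.mul_eq_zero.1 h2.symm with h6 | h6
      · exact hl h6
      · omega
    have h4 := hmin _ (precomp_kill hf φ) h3
    have h5 : k * (Multiplicative.toAdd (f g)).natAbs ≤ l * (Multiplicative.toAdd (f g)).natAbs :=
      (Nat.mul_le_mul_left k h4).trans h2.le
    exact Nat.le_of_mul_le_mul_right h5 hpos

theorem content_inj {n : ℕ} (g x y : gm G n) (k l : ℕ)
    (h0 : ∃ f : gm G n →* Multiplicative ℤ, Kill f ∧ f g ≠ 1)
    (hx : ∀ f : gm G n →* Multiplicative ℤ, Kill f → f x = f g ^ k)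
    (hy : ∀ f : gm G n →* Multiplicative ℤ, Kill f → f y = f g ^ l)
    (φ : MulAut G) (h : φ x = y) : k = l := by
  have h1 := content_le g x y k l h0 hx hy φ h
  have h2 := content_le g y x l k h0 hy hx φ⁻¹ (by rw [← h, MulAut.inv_apply_self])
  by_cases hk : k = 0
  · rw [hk, h1.1 hk]
  · have hl : l ≠ 0 := fun hl => hk (h2.1 hl)
    exact le_antisymm (h1.2 hl) (h2.2 hk)

theorem comm_ball {S : Finset G} {a b : ℕ} {x y : G} (hx : x ∈ ball S a) (hy : y ∈ ball S b) :
    ⁅x, y⁆ ∈ ball S (2 * a + 2 * b) := by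
  rw [commutatorElement_def]
  have h := mul_mem_ball (mul_mem_ball (mul_mem_ball hx hy) (inv_mem_ball hx)) (inv_mem_ball hy)
  exact ball_mono S (by omega) h

theorem lc_ball {S : Finset G} {B : ℕ} {g : ℕ → G} (hg : ∀ i, g i ∈ ball S B) :
    ∀ n, lc g n ∈ ball S (4 ^ (n + 1) * B)
  | 0 => ball_mono S (by omega) (hg 0)
  | n + 1 => by
    have h := comm_ball (lc_ball hg n) (hg (n + 1))
    refine ball_mono S ?_ h
    have h1 : B ≤ 4 ^ (n + 1) * B := Nat.le_mul_of_pos_left _ (by positivity)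
    calc 2 * (4 ^ (n + 1) * B) + 2 * B ≤ 2 * (4 ^ (n + 1) * B) + 2 * (4 ^ (n + 1) * B) := by omega
      _ = 4 ^ (n + 1 + 1) * B := by ring

/-- the exponents of the digit `r` at the position `m` -/
def dg (R m r : ℕ) (i : ℕ) : ℕ := if i < m then R else if i = m then r else 1

theorem dg_prod (R m r n : ℕ) (h : m ≤ n) :
    ∏ i ∈ Finset.range (n + 1), dg R m r i = R ^ m * r := by
  have h1 : n + 1 = m + (1 + (n - m)) := by omega
  rw [h1, Finset.prod_range_add, Finset.prod_range_add, Finset.prod_range_one]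
  have h2 : ∏ i ∈ Finset.range m, dg R m r i = R ^ m := by
    rw [Finset.prod_congr rfl (g := fun _ => R)]
    · rw [Finset.prod_const, Finset.card_range]
    · intro i hi
      rw [Finset.mem_range] at hi
      rw [dg, if_pos hi]
  have h3 : ∏ x ∈ Finset.range (n - m), dg R m r (m + (1 + x)) = 1 := by
    apply Finset.prod_eq_one
    intro i _
    rw [dg, if_neg (by omega), if_neg (by omega)]
  have h4 : dg R m r (m + 0) = r := by
    rw [dg, if_neg (by omega), if_pos (by omega)]
  rw [h2, h3, h4, mul_one]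

theorem dg_le {R m r i : ℕ} (hR : 1 ≤ R) (hr : r ≤ R) : dg R m r i ≤ R := by
  unfold dg
  split_ifs <;> omega

/-- all powers `g^k`, `k < R^m`, of a commutator of weight `n + 1 ≥ m` of generators are short modulo the next term -/
theorem exists_short {S : Finset G} (s : ℕ → G) (hs : ∀ i, s i ∈ S) (n R : ℕ) (hR : 1 ≤ R) :
    ∀ m, m ≤ n + 1 → ∀ k < R ^ m, ∃ x : gm G n, (x : G) ∈ ball S (m * (4 ^ (n + 1) * R)) ∧
      ∀ f : gm G n →* Multiplicative ℤ, Kill f → f x = f ⟨lc s n, lc_mem s n⟩ ^ k := by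
  intro m
  induction m with
  | zero =>
    intro _ k hk
    have hk0 : k = 0 := by simpa using hk
    refine ⟨1, one_mem_ball S _, ?_⟩
    intro f _
    rw [map_one, hk0, pow_zero]
  | succ m ih =>
    intro hm k hk
    obtain ⟨x, hx, hfx⟩ := ih (by omega) (k % R ^ m) (Nat.mod_lt _ (by positivity))
    have hr : k / R ^ m < R := by
      rw [Nat.div_lt_iff_lt_mul (by positivity), ← pow_succ']
      exact hk
    refine ⟨x * ⟨lc (fun i => s i ^ dg R m (k / R ^ m) i) n, lc_mem _ n⟩, ?_, ?_⟩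
    · have h1 : lc (fun i => s i ^ dg R m (k / R ^ m) i) n ∈ ball S (4 ^ (n + 1) * R) := by
        apply lc_ball
        intro i
        have h2 := pow_mem_ball (mem_ball_one (hs i)) (dg R m (k / R ^ m) i)
        exact ball_mono S (by simpa using dg_le hR hr.le) h2
      have h3 := mul_mem_ball hx h1
      refine ball_mono S ?_ h3
      rw [Nat.succ_mul]
    · intro f hf
      rw [map_mul, hfx f hf, lc_pow s _ n f hf, dg_prod R m _ n (by omega), ← pow_add,
        Nat.mod_add_div]

/-- the lower bound for the automorphic growth -/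
theorem growth_lower {S : Finset G} (hS : Subgroup.closure (S : Set G) = ⊤) (n : ℕ)
    (f : gm G n →* Multiplicative ℤ) (hf : Kill f) (hf1 : f ≠ 1) (R : ℕ) (hR : 1 ≤ R) :
    R ^ (n + 1) ≤ autGrowth S ((n + 1) * (4 ^ (n + 1) * R)) := by
  obtain ⟨s, hs, hsf⟩ : ∃ s : ℕ → G, (∀ i, s i ∈ (S : Set G)) ∧ f ⟨lc s n, lc_mem s n⟩ ≠ 1 := by
    by_contra hcon
    push Not at hcon
    exact hf1 (eq_one_of_gen (S : Set G) hS n f hf hcon)
  have h1 := fun k : Fin (R ^ (n + 1)) => exists_short s hs n R hR (n + 1) le_rfl k k.2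
  choose x hx hfx using h1
  have h2 := le_autGrowth S ((n + 1) * (4 ^ (n + 1) * R)) (fun k => (x k : G)) hx (by
    rintro i j ⟨φ, hφ⟩
    apply Fin.ext
    exact content_inj ⟨lc s n, lc_mem s n⟩ (x i) (x j) i j ⟨f, hf, hsf⟩ (hfx i) (hfx j) φ hφ)
  rwa [Nat.card_eq_fintype_card, Fintype.card_fin] at h2

end

end ALN
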