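import Pool.Agent.ALN.Growth

/-!
# [ALN] automorphic growth and torsion-free nilpotent quotients (MP_893f58_al) (helper52)
-/

set_option autoImplicit false

namespace ALN

open AG ALG

open scoped commutatorElement

section

variable {G : Type*} [Group G]

/-- A finitely generated infinite abelian group has a nontrivial homomorphism to `ℤ`. -/
theorem exists_hom_int (A : Type*) [CommGroup A] [Group.FG A] (h : Infinite A) :
    ∃ f : A →* Multiplicative ℤ, f ≠ 1 := by
  classical
  obtain ⟨ι, j, hι, hj, p, hp, e, ⟨E⟩⟩ := CommGroup.equiv_free_prod_prod_multiplicative_zmod A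
  rcases isEmpty_or_nonempty j with hj' | ⟨⟨i⟩⟩
  · exfalso
    have : ∀ i, NeZero (p i ^ e i) := fun i => ⟨pow_ne_zero _ (hp i).ne_zero⟩
    have : ∀ i, Finite (Multiplicative (ZMod (p i ^ e i))) := fun i =>
      Finite.of_equiv (ZMod (p i ^ e i)) Multiplicative.ofAdd
    have h1 : Finite A := Finite.of_equiv _ E.symm.toEquiv
    exact not_finite A
  · refine ⟨((Pi.evalMonoidHom (fun _ : j => Multiplicative ℤ) i).comp
      (MonoidHom.fst (j → Multiplicative ℤ) _)).comp E.toMonoidHom, ?_⟩
    intro h1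
    have h2 := DFunLike.congr_fun h1 (E.symm (Pi.mulSingle i (Multiplicative.ofAdd 1), 1))
    simp at h2

theorem exists_kill_aux [Group.FG G] (n : ℕ) {A : Type*} [CommGroup A] (q : gm G n →* A)
    (hsur : Function.Surjective q) (hq : Kill q) (hinf : Infinite A) :
    ∃ f : gm G n →* Multiplicative ℤ, Kill f ∧ f ≠ 1 := by
  classical
  obtain ⟨S, hS⟩ := (Group.fg_def (G := G)).1 inferInstance
  let e : (Fin (n + 1) → (S : Set G)) → A := fun s =>
    q ⟨lc (fun i => if h : i < n + 1 then ((s ⟨i, h⟩ : (S : Set G)) : G) else 1) n, lc_mem _ n⟩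
  have hfg : Group.FG A := by
    refine Group.fg_def.2 ⟨(Set.finite_range e).toFinset, ?_⟩
    set B := Subgroup.closure (((Set.finite_range e).toFinset : Finset A) : Set A) with hB
    have h1 : (QuotientGroup.mk' B).comp q = 1 := by
      apply eq_one_of_gen (S : Set G) hS n
      · intro x hx
        rw [MonoidHom.comp_apply, hq x hx, map_one]
      · intro s hs
        rw [MonoidHom.comp_apply]
        apply (QuotientGroup.eq_one_iff _).2
        apply Subgroup.subset_closure
        rw [Set.Finite.coe_toFinset]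
        refine ⟨fun i => ⟨s i, hs i⟩, ?_⟩
        show q _ = q _
        apply congrArg
        apply Subtype.ext
        apply lc_congr
        intro i hi
        rw [dif_pos (by omega)]
    rw [eq_top_iff]
    intro a _
    obtain ⟨x, rfl⟩ := hsur a
    have h2 := DFunLike.congr_fun h1 x
    exact (QuotientGroup.eq_one_iff _).1 h2
  obtain ⟨f, hf⟩ := exists_hom_int A hinf
  refine ⟨f.comp q, ?_, ?_⟩
  · intro x hx
    rw [MonoidHom.comp_apply, hq x hx, map_one]
  · intro h1
    apply hf
    ext a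
    obtain ⟨x, rfl⟩ := hsur a
    exact DFunLike.congr_fun h1 x

theorem exists_kill [Group.FG G] (n : ℕ)
    (h : (gm G (n + 1)).relIndex (gm G n) = 0) :
    ∃ f : gm G n →* Multiplicative ℤ, Kill f ∧ f ≠ 1 := by
  classical
  have hN : (gm G (n + 1)).Normal := Subgroup.lowerCentralSeries_normal (⊤ : Subgroup G) (n + 1)
  have hN2 : ((gm G (n + 1)).subgroupOf (gm G n)).Normal := Subgroup.normal_subgroupOf
  let I : CommGroup (gm G n ⧸ (gm G (n + 1)).subgroupOf (gm G n)) :=
    { QuotientGroup.Quotient.group ((gm G (n + 1)).subgroupOf (gm G n)) with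
      mul_comm := by
        intro a b
        induction a using QuotientGroup.induction_on with
        | H x =>
          induction b using QuotientGroup.induction_on with
          | H y =>
            rw [← QuotientGroup.mk_mul, ← QuotientGroup.mk_mul, QuotientGroup.eq,
              Subgroup.mem_subgroupOf]
            have h1 : (((x * y)⁻¹ * (y * x) : gm G n) : G) = ⁅((y : G))⁻¹, ((x : G))⁻¹⁆ := by
              simp only [Subgroup.coe_mul, Subgroup.coe_inv, commutatorElement_def]
              group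
            rw [h1]
            exact comm_mem (inv_mem y.2) _ }
  have hinf : Infinite (gm G n ⧸ (gm G (n + 1)).subgroupOf (gm G n)) := by
    rw [Subgroup.relIndex, Subgroup.index] at h
    rcases Nat.card_eq_zero.1 h with h1 | h1
    · exact (h1.false (1 : gm G n ⧸ (gm G (n + 1)).subgroupOf (gm G n))).elim
    · exact h1
  exact @exists_kill_aux G _ _ n (gm G n ⧸ (gm G (n + 1)).subgroupOf (gm G n)) I
    (QuotientGroup.mk' ((gm G (n + 1)).subgroupOf (gm G n))) (QuotientGroup.mk'_surjective _)
    (fun x hx => (QuotientGroup.eq_one_iff x).2 hx) hinf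

/-- If the automorphic growth of a subgroup of finite index is at most `C (n + 1)^d` then the torsion-free nilpotent quotients of it have class at most `d`. -/
theorem finite_layer (T : Finset G) (hT : Subgroup.closure (T : Set G) = ⊤) (C d : ℕ)
    (h : ∀ m, autGrowth T m ≤ C * (m + 1) ^ d) (n : ℕ) (hn : d ≤ n) :
    (gm G (n + 1)).relIndex (gm G n) ≠ 0 := by
  intro h0
  have : Group.FG G := (Group.fg_def (G := G)).2 ⟨T, hT⟩
  obtain ⟨f, hf, hf1⟩ := exists_kill n h0
  set L := (n + 1) * 4 ^ (n + 1) with hL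
  have h1 : ∀ R : ℕ, 1 ≤ R → R ^ (n + 1) ≤ C * (L + 1) ^ d * R ^ d := by
    intro R hR
    have h2 := (growth_lower hT n f hf hf1 R hR).trans (h _)
    refine h2.trans ?_
    have h3 : (n + 1) * (4 ^ (n + 1) * R) + 1 ≤ (L + 1) * R := by
      rw [hL]
      nlinarith
    calc C * ((n + 1) * (4 ^ (n + 1) * R) + 1) ^ d ≤ C * ((L + 1) * R) ^ d :=
          Nat.mul_le_mul_left _ (Nat.pow_le_pow_left h3 d)
      _ = C * (L + 1) ^ d * R ^ d := by rw [mul_pow]; ring
  have h2 := h1 (C * (L + 1) ^ d + 1) (by omega)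
  have h3 : (C * (L + 1) ^ d + 1) ^ (d + 1) ≤ (C * (L + 1) ^ d + 1) ^ (n + 1) :=
    Nat.pow_le_pow_right (by omega) (by omega)
  have h4 : C * (L + 1) ^ d * (C * (L + 1) ^ d + 1) ^ d < (C * (L + 1) ^ d + 1) ^ (d + 1) := by
    rw [pow_succ (C * (L + 1) ^ d + 1) d, mul_comm]
    exact Nat.mul_lt_mul_of_pos_left (by omega) (by positivity)
  omega

end

/-- the lower bound for groups with an infinite layer in a subgroup of finite index -/
theorem dom_of_layer {G : Type*} [Group G] (S : Finset G)
    (hS : Subgroup.closure (S : Set G) = ⊤) (H : Subgroup G) [H.FiniteIndex] (n : ℕ)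
    (h : (gm H (n + 1)).relIndex (gm H n) = 0) :
    Dom (fun m => m ^ (n + 1)) (autGrowth S) := by
  have : Group.FG G := ⟨⟨S, hS⟩⟩
  obtain ⟨T, hT⟩ : ∃ T : Finset H, Subgroup.closure (T : Set H) = ⊤ :=
    (Group.fg_def (G := H)).1 inferInstance
  obtain ⟨r, k, hr⟩ := sub_growth S hS H T
  obtain ⟨f, hf, hf1⟩ := exists_kill n h
  set L := (n + 1) * 4 ^ (n + 1) with hL
  refine ⟨r + k * L + 1, by omega, fun m => ?_⟩
  rcases Nat.eq_zero_or_pos m with hm | hm
  · subst hm
    show 0 ^ (n + 1) ≤ _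
    rw [zero_pow (by omega)]
    exact Nat.zero_le _
  · have h1 := (growth_lower hT n f hf hf1 m hm).trans (hr _)
    have h2 : autGrowth S (k * ((n + 1) * (4 ^ (n + 1) * m))) ≤
        autGrowth S ((r + k * L + 1) * m + (r + k * L + 1)) := by
      unfold autGrowth
      refine Set.ncard_le_ncard (Set.image_mono (ball_mono S ?_)) ((ball_finite S _).image _)
      have h3 : k * ((n + 1) * (4 ^ (n + 1) * m)) = k * L * m := by rw [hL]; ring
      rw [h3]
      nlinarith
    calc m ^ (n + 1) ≤ r * autGrowth S (k * ((n + 1) * (4 ^ (n + 1) * m))) := h1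
      _ ≤ (r + k * L + 1) * autGrowth S ((r + k * L + 1) * m + (r + k * L + 1)) :=
          Nat.mul_le_mul (by omega) h2
      _ ≤ _ := Nat.le_add_right _ _

theorem not_polyBdd_of_layers {G : Type*} [Group G] (S : Finset G)
    (hS : Subgroup.closure (S : Set G) = ⊤) (H : Subgroup G) [H.FiniteIndex]
    (h : ∀ n, (gm H (n + 1)).relIndex (gm H n) = 0) : ¬ PolyBdd (autGrowth S) := by
  rintro ⟨C, d, hC⟩
  have : Group.FG G := ⟨⟨S, hS⟩⟩
  obtain ⟨T, hT⟩ : ∃ T : Finset H, Subgroup.closure (T : Set H) = ⊤ :=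
    (Group.fg_def (G := H)).1 inferInstance
  obtain ⟨C', d', hC'⟩ := polyBdd_sub S hS H T ⟨C, d, hC⟩
  exact finite_layer T hT C' d' hC' d' le_rfl (h d')

/-- the version for subgroups of finite index -/
theorem finite_layer_sub {G : Type*} [Group G] (S : Finset G)
    (hS : Subgroup.closure (S : Set G) = ⊤) (C d : ℕ) (h : ∀ m, autGrowth S m ≤ C * (m + 1) ^ d)
    (H : Subgroup G) [H.FiniteIndex] (n : ℕ) (hn : d ≤ n) :
    (gm H (n + 1)).relIndex (gm H n) ≠ 0 := by
  have : Group.FG G := ⟨⟨S, hS⟩⟩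
  obtain ⟨T, hT⟩ : ∃ T : Finset H, Subgroup.closure (T : Set H) = ⊤ :=
    (Group.fg_def (G := H)).1 inferInstance
  obtain ⟨r, k, hr⟩ := sub_growth S hS H T
  refine finite_layer T hT (r * C * (k + 1) ^ d) d (fun n => (hr n).trans ?_) n hn
  calc r * autGrowth S (k * n) ≤ r * (C * (k * n + 1) ^ d) := Nat.mul_le_mul_left _ (h _)
    _ ≤ r * (C * ((k + 1) * (n + 1)) ^ d) :=
        Nat.mul_le_mul_left _ (Nat.mul_le_mul_left _ (Nat.pow_le_pow_left (by nlinarith) d))
    _ = _ := by rw [mul_pow]; ring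

end ALN
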